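import Pool.Agent.N71.EX.Stm

/-!
# Project EX, leaf CNF: the class number formula for real quadratic fields
-/

set_option autoImplicit false

namespace Pool.Agent.N323.EX

open Finset Filter NumberField Pool.Agent.H38R2.CG
open scoped Classical

theorem places (K : Type) [Field K] [NumberField K] (D : ℕ) (hD : 0 < D)
    (h2 : Module.finrank ℚ K = 2) (hd : NumberField.discr K = (D : ℤ)) :
    InfinitePlace.nrComplexPlaces K = 0 ∧ InfinitePlace.nrRealPlaces K = 2 := by
  have h1 := InfinitePlace.card_add_two_mul_card_eq_rank K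
  rw [h2] at h1
  have h3 := sign_discr K
  rw [hd, Int.sign_eq_one_of_pos (by exact_mod_cast hD)] at h3
  have h4 : InfinitePlace.nrComplexPlaces K ≤ 1 := by omega
  have h5 : InfinitePlace.nrComplexPlaces K ≠ 1 := by
    intro h
    rw [h] at h3
    norm_num at h3
  omega

set_option backward.isDefEq.respectTransparency false in
theorem torsion2 (K : Type) [Field K] [NumberField K]
    (h : 0 < InfinitePlace.nrRealPlaces K) : Units.torsionOrder K = 2 := by
  have key : ∀ x : Units.torsion K, (x : (𝓞 K)ˣ) = 1 ∨ (x : (𝓞 K)ˣ) = -1 := by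
    intro x
    by_cases! hc : 2 < orderOf (x : (𝓞 K)ˣ)
    · rw [← orderOf_units, ← orderOf_submonoid] at hc
      linarith [InfinitePlace.IsPrimitiveRoot.nrRealPlaces_eq_zero_of_two_lt hc
        (IsPrimitiveRoot.orderOf (x.1 : K))]
    · interval_cases hi : orderOf (x : (𝓞 K)ˣ)
      · linarith [orderOf_pos_iff.2 ((CommGroup.mem_torsion x.1).1 x.2)]
      · exact Or.intro_left _ (orderOf_eq_one_iff.1 hi)
      · rw [← orderOf_units, CharP.orderOf_eq_two_iff 0 (by decide)] at hi
        simp [← Units.val_inj, ← Units.val_inj, Units.val_neg, Units.val_one, hi]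
  have hfin := Fintype.ofFinite (Units.torsion K)
  rw [Units.torsionOrder, Nat.card_eq_fintype_card]
  refine (Finset.card_eq_two.2 ⟨1, ⟨-1, neg_one_mem_torsion⟩,
    by simp [← Subtype.coe_ne_coe], Finset.ext fun x ↦ ⟨fun _ ↦ ?_, fun _ ↦ Finset.mem_univ _⟩⟩)
  rw [Finset.mem_insert, Finset.mem_singleton, ← Subtype.val_inj, ← Subtype.val_inj]
  exact key x

theorem t_CNF : Pool.Agent.N71.EX.E_CNF := by
  have hN0 : P_N0 := T_N0
  have h_P_SPL : P_SPL := T_SPL hN0
  have h_P_N2 : P_N2 := T_N2 h_P_SPL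
  have h_P_KR : P_KR := T_KR
  have h_P_PV : P_PV := T_PV
  have h_P_N3a : P_N3a := T_N3a h_P_KR h_P_PV
  have h_P_N3b : P_N3b := T_N3b h_P_KR h_P_PV h_P_N3a
  have hN3 : P_N3 := T_N3 h_P_N2 h_P_N3b
  intro K _ _ D hD h2 hd
  obtain ⟨-, hall, -⟩ := hN3 K D hD h2 hd
  have hD0 : 0 < D := by have := hD.1; omega
  have h := (NumberField.Ideal.tendsto_norm_le_div_atTop₀ K).comp
    (tendsto_natCast_atTop_atTop (R := ℝ))
  have h' : Tendsto (fun N : ℕ => (Nat.card {I : nonZeroDivisors (Ideal (𝓞 K)) //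
      Ideal.absNorm (I : Ideal (𝓞 K)) ≤ N} : ℝ) / N) atTop
      (nhds ((2 ^ InfinitePlace.nrRealPlaces K *
        (2 * Real.pi) ^ InfinitePlace.nrComplexPlaces K * Units.regulator K * classNumber K) /
            (Units.torsionOrder K * Real.sqrt |discr K|))) := by
    refine h.congr ?_
    intro N
    simp only [Function.comp, Nat.cast_le]
  rw [tendsto_nhds_unique hall h']
  obtain ⟨hc, hr⟩ := places K D hD0 h2 hd
  rw [torsion2 K (by omega), hc, hr, hd]
  have hs' : Real.sqrt |(((D : ℤ) : ℤ) : ℝ)| = √(D : ℝ) := by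
    rw [Int.cast_natCast, abs_of_nonneg (by positivity)]
  rw [hs']
  have hsp : 0 < √(D : ℝ) := Real.sqrt_pos.2 (by exact_mod_cast hD0)
  field_simp
  push_cast
  ring

end Pool.Agent.N323.EX
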